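import Mathlib

set_option autoImplicit false

namespace Pool.Agent.Results.MP_ff76d6_ag.No

/-- The sequence `P(t)`: subtract `2t` from the entries of the first block (indices below
`α`), `t` from the entries of the second block (indices from `α` to `α + β - 1`) and nothing
from the entries of the third block. -/
def shift (α β γ : ℕ) (P : Fin (α + β + γ) → ℤ) (t : ℤ) : Fin (α + β + γ) → ℤ := fun i =>
  if i.val < α then P i - 2 * t else if i.val < α + β then P i - t else P i

/-- `P` is an Ulrich partition of type `(α, β, γ)`: it is strictly decreasing, and for every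
`t` from `1` to `N = αβ + αγ + βγ` the sequence `P(t)` has two equal entries. -/
def IsUlrich (α β γ : ℕ) (P : Fin (α + β + γ) → ℤ) : Prop :=
  StrictAnti P ∧ ∀ t : ℕ, 1 ≤ t → t ≤ α * β + α * γ + β * γ →
    ∃ i j : Fin (α + β + γ), i ≠ j ∧ shift α β γ P t i = shift α β γ P t j

/-- The partition `(38 | 10, 9, 2, 1 | 0, -2, -4, -6, -16, -22, -32, -38, -48, -50, -52, -54)`. -/
def P0 : Fin (1 + 4 + 12) → ℤ :=
  ![38, 10, 9, 2, 1, 0, -2, -4, -6, -16, -22, -32, -38, -48, -50, -52, -54]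

theorem anti : StrictAnti P0 := by
  rw [Fin.strictAnti_iff_succ_lt]
  decide +kernel

theorem coll : ∀ t : Fin 65, 1 ≤ t.val →
    ∃ i j : Fin (1 + 4 + 12), i ≠ j ∧ shift 1 4 12 P0 (t.val : ℕ) i = shift 1 4 12 P0 (t.val : ℕ) j := by
  decide +kernel

theorem result : ∃ (α β γ : ℕ) (P : Fin (α + β + γ) → ℤ),
    α = 1 ∧ β = 4 ∧ γ = 12 ∧ 1 ≤ α ∧ 3 ≤ β ∧ 3 ≤ γ ∧ IsUlrich α β γ P := by
  refine ⟨1, 4, 12, P0, rfl, rfl, rfl, by norm_num, by norm_num, by norm_num, anti, ?_⟩
  intro t h1 h2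
  exact coll ⟨t, by omega⟩ h1

end Pool.Agent.Results.MP_ff76d6_ag.No
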